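import Pool.Agent.HAR.Stmts

namespace Pool.Agent.HAR.H67

open Finset Filter Topology Pool.Agent.HAR

theorem pha (cnt : CntStmt) (thd : ThdStmt) (prb : PrbStmt) : PhaStmt := by
  classical
  intro n I φ hinj hm
  set D := I.filter fun x => φ x ≠ x with hD
  set Z := I.filter fun x => φ x = x with hZ
  have hDI : D ⊆ I := Finset.filter_subset _ _
  have hZI : Z ⊆ I := Finset.filter_subset _ _
  have hcard : Z.card + D.card = I.card :=
    Finset.card_filter_add_card_filter_not (s := I) (p := fun x => φ x = x)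
  obtain ⟨D', hD'D, hD'c, hD'φ⟩ := thd (Fin n) D φ
    (hinj.mono (by exact_mod_cast hDI)) (fun x hx => (Finset.mem_filter.1 hx).2)
  have hDZ : ∀ x, x ∈ D' → x ∉ Z := by
    intro x hx hxZ
    exact (Finset.mem_filter.1 (hD'D hx)).2 (Finset.mem_filter.1 hxZ).2
  let P : Finset (Sym2 (Fin n)) := (D' ×ˢ Z).image fun q => s(q.1, q.2)
  have hPc : P.card = D'.card * Z.card := by
    rw [Finset.card_image_of_injOn, Finset.card_product]
    rintro ⟨x, z⟩ hxz ⟨x', z'⟩ hxz' h
    rw [Finset.mem_coe, Finset.mem_product] at hxz hxz'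
    have h' : s(x, z) = s(x', z') := h
    rw [Sym2.eq_iff] at h'
    rcases h' with ⟨h1, h2⟩ | ⟨h1, h2⟩
    · rw [h1, h2]
    · exfalso
      have h3 : x = z' := h1
      apply hDZ x hxz.1
      rw [h3]
      exact hxz'.2
  have h1 := cnt n P (Sym2.map φ) (by
    intro e he
    obtain ⟨⟨x, z⟩, hxz, rfl⟩ := Finset.mem_image.1 he
    rw [Finset.mem_product] at hxz
    show ¬ Sym2.IsDiag s(x, z)
    rw [Sym2.mk_isDiag_iff]
    intro h
    have h2 : x = z := h
    apply hDZ x hxz.1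
    rw [h2]
    exact hxz.2) (by
    intro e he hfe
    obtain ⟨⟨x, z⟩, hxz, rfl⟩ := Finset.mem_image.1 he
    rw [Finset.mem_product] at hxz
    obtain ⟨⟨x', z'⟩, hxz', h⟩ := Finset.mem_image.1 hfe
    rw [Finset.mem_product] at hxz'
    have h' : s(x', z') = s(φ x, φ z) := h
    have hz : φ z = z := (Finset.mem_filter.1 hxz.2).2
    rw [hz, Sym2.eq_iff] at h'
    rcases h' with ⟨h1, h2⟩ | ⟨h1, h2⟩
    · apply hD'φ x hxz.1
      rw [← h1]
      exact hxz'.1
    · apply hDZ x' hxz'.1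
      rw [h1]
      exact hxz.2)
  have h2 := prb.1 (SimpleGraph (Fin n)) (fun G => IsE G G I φ)
    (fun G => ∀ e ∈ P, (e ∈ G.edgeSet ↔ Sym2.map φ e ∈ G.edgeSet)) (by
      intro G hG e he
      obtain ⟨⟨x, z⟩, hxz, rfl⟩ := Finset.mem_image.1 he
      rw [Finset.mem_product] at hxz
      show s(x, z) ∈ G.edgeSet ↔ s(φ x, φ z) ∈ G.edgeSet
      rw [SimpleGraph.mem_edgeSet, SimpleGraph.mem_edgeSet]
      exact (hG.2 x (hDI (hD'D hxz.1)) z (hZI hxz.2)).symm)
  refine h2.trans (h1.trans ?_)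
  have h3 : (D.card * I.card : ℕ) ≤ 6 * P.card := by
    rw [hPc]
    have h4 : I.card ≤ 2 * Z.card := by omega
    calc D.card * I.card ≤ (3 * D'.card) * (2 * Z.card) := Nat.mul_le_mul hD'c h4
      _ = 6 * (D'.card * Z.card) := by ring
  have h4 : ((D.card * I.card : ℕ) : ℝ) ≤ 6 * (P.card : ℝ) := by exact_mod_cast h3
  have h5 : ((1 : ℝ) / 2) ^ P.card = (2 : ℝ) ^ (-(P.card : ℝ)) := by
    rw [Real.rpow_neg (by norm_num), Real.rpow_natCast, one_div, inv_pow]
  rw [h5]
  apply Real.rpow_le_rpow_of_exponent_le (by norm_num)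
  linarith

end Pool.Agent.HAR.H67
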